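import Mathlib
import Pool.Agent.W4.CF.Stms3

/-!
Project CD (helper4): reduction of a general binary cubic form to a form `G A B`.
-/

set_option autoImplicit false

namespace Pool.Agent.W753.CD.RED

open Pool.Agent.W4.CF

/-- the greatest common divisor, a positive multiple -/
lemma key_gcd {a b n x y : ℤ} (ha : a ≠ 0) (h : IsCoprime x y) :
    ∃ (g : ℤ) (u v : ℤ), 0 < g ∧ g ∣ 3 * a ∧ 3 * a * x + b * (y - n * x) = g * u ∧
      y - n * x = g * v ∧ IsCoprime u v ∧
      u = (3 * a * x + b * (y - n * x)) / (Int.gcd (3 * a * x + b * (y - n * x)) (y - n * x) : ℤ) ∧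
      v = (y - n * x) / (Int.gcd (3 * a * x + b * (y - n * x)) (y - n * x) : ℤ) ∧
      g = (Int.gcd (3 * a * x + b * (y - n * x)) (y - n * x) : ℤ) := by
  set X := 3 * a * x + b * (y - n * x) with hX
  set Y := y - n * x with hY
  obtain ⟨α, β, hαβ⟩ := h
  have h1 : (α + β * n) * x + β * Y = 1 := by rw [hY]; linear_combination hαβ
  have hpos : 0 < Int.gcd X Y := by
    apply Nat.pos_of_ne_zero
    intro h0
    rw [Int.gcd_eq_zero_iff] at h0
    obtain ⟨hX0, hY0⟩ := h0
    rw [hX, hY0, mul_zero, add_zero] at hX0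
    rw [hY0, mul_zero, add_zero] at h1
    have hx : x = 0 := by
      rcases mul_eq_zero.1 hX0 with h2 | h2
      · exfalso
        apply ha
        omega
      · exact h2
    rw [hx, mul_zero] at h1
    omega
  have d1 : (Int.gcd X Y : ℤ) ∣ X := Int.gcd_dvd_left ..
  have d2 : (Int.gcd X Y : ℤ) ∣ Y := Int.gcd_dvd_right ..
  refine ⟨Int.gcd X Y, X / Int.gcd X Y, Y / Int.gcd X Y, by exact_mod_cast hpos, ?_, ?_, ?_, ?_,
    rfl, rfl, rfl⟩
  · have d3 : (Int.gcd X Y : ℤ) ∣ 3 * a * x := by
      have e : 3 * a * x = X - b * Y := by rw [hX]; ring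
      rw [e]
      exact dvd_sub d1 (d2.mul_left _)
    have e : 3 * a = (α + β * n) * (3 * a * x) + (β * (3 * a)) * Y := by
      linear_combination (-(3 * a)) * h1
    rw [e]
    exact dvd_add (d3.mul_left _) (d2.mul_left _)
  · exact (Int.mul_ediv_cancel' d1).symm
  · exact (Int.mul_ediv_cancel' d2).symm
  · rw [Int.isCoprime_iff_gcd_eq_one]
    exact Int.gcd_ediv_gcd_ediv_gcd hpos

/-- the map -/
def phi (a b n : ℤ) (p : ℤ × ℤ) : ℤ × ℤ :=
  ((3 * a * p.1 + b * (p.2 - n * p.1)) /
      (Int.gcd (3 * a * p.1 + b * (p.2 - n * p.1)) (p.2 - n * p.1) : ℤ),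
    (p.2 - n * p.1) / (Int.gcd (3 * a * p.1 + b * (p.2 - n * p.1)) (p.2 - n * p.1) : ℤ))

/-- the leading coefficient can be made nonzero -/
lemma exists_n {a b c d : ℤ} (h : disc3 a b c d ≠ 0) : ∃ n : ℤ, a + b * n + c * n ^ 2 + d * n ^ 3 ≠ 0 := by
  by_contra hc
  push Not at hc
  have h0 := hc 0
  have h1 := hc 1
  have h2 := hc (-1)
  have h3 := hc 2
  have ea : a = 0 := by linarith
  have ec : c = 0 := by linarith
  have ed : d = 0 := by linarith
  have eb : b = 0 := by linarith
  apply h
  rw [ea, eb, ec, ed]; rfl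

theorem t_RED : S_RED := by
  intro a0 b0 c0 d hdisc
  obtain ⟨n, hn⟩ := exists_n hdisc
  set a := a0 + b0 * n + c0 * n ^ 2 + d * n ^ 3 with hadef
  set b := b0 + 2 * c0 * n + 3 * d * n ^ 2 with hb
  set c := c0 + 3 * d * n with hc
  have hF : ∀ x y, F3 a0 b0 c0 d x y = F3 a b c d x (y - n * x) := by
    intro x y
    unfold F3
    rw [hadef, hb, hc]
    ring
  set A := 3 * (b ^ 2 - 3 * a * c) with hA
  set B := -(2 * b ^ 3 - 9 * a * b * c + 27 * a ^ 2 * d) with hB
  have hG : ∀ x Y, 27 * a ^ 2 * F3 a b c d x Y = G A B (3 * a * x + b * Y) Y := by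
    intro x Y
    unfold F3 G
    rw [hA, hB]
    ring
  have hD : 4 * A ^ 3 - 27 * B ^ 2 = 729 * a ^ 2 * disc3 a0 b0 c0 d := by
    rw [hA, hB, hb, hc]
    unfold disc3
    rw [hadef]
    ring
  have ha : a ≠ 0 := hn
  have hαn : (1 : ℝ) ≤ |(a : ℝ)| := by
    have : 1 ≤ |a| := Int.one_le_abs ha
    exact_mod_cast this
  set α : ℝ := 3 * |(a : ℝ)| with hα
  set β : ℝ := |(b : ℝ)| with hβ
  set η : ℝ := |(n : ℝ)| with hη
  have hβ0 : 0 ≤ β := abs_nonneg _
  have hη0 : 0 ≤ η := abs_nonneg _
  have hα0 : 3 ≤ α := by rw [hα]; linarith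
  refine ⟨A, B, 3 * a.natAbs, (1 + α) * (1 + β) * (1 + η), phi a b n, ?_, ?_, ?_, ?_⟩
  · rw [hD]
    exact mul_ne_zero (mul_ne_zero (by norm_num) (pow_ne_zero _ ha)) hdisc
  · have := Int.natAbs_pos.2 ha
    omega
  · have h1 : 1 ≤ 1 + α := by linarith
    have h2 : 1 ≤ 1 + β := by linarith
    have h3 : 1 ≤ 1 + η := by linarith
    exact one_le_mul_of_one_le_of_one_le (one_le_mul_of_one_le_of_one_le h1 h2) h3
  · rintro ⟨x, y⟩ hcop hFne
    simp only at hcop hFne ⊢
    obtain ⟨g, u, v, hg, hg3, hu, hv, huv, eu, ev, eg⟩ := key_gcd (b := b) (n := n) ha hcop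
    have hphi : phi a b n (x, y) = (u, v) := by
      unfold phi
      rw [eu, ev]
    rw [hphi]
    simp only
    have hval : g ^ 3 * G A B u v = 27 * a ^ 2 * F3 a0 b0 c0 d x y := by
      rw [hF, hG, hu, hv]
      unfold G
      ring
    have hgle : (g : ℝ) ≤ α := by
      have h1 : g ≤ |3 * a| := by
        have := Int.le_of_dvd (abs_pos.2 (mul_ne_zero (by norm_num) ha)) ((dvd_abs _ _).2 hg3)
        exact this
      have h2 : (g : ℝ) ≤ |(3 * a : ℝ)| := by exact_mod_cast h1
      rw [abs_mul] at h2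
      rw [hα]
      have h3 : |(3 : ℝ)| = 3 := by norm_num
      rw [h3] at h2
      exact h2
    have hgR : (1 : ℝ) ≤ g := by exact_mod_cast hg
    have huR : 3 * (a : ℝ) * x + b * (y - n * x) = g * u := by exact_mod_cast hu
    have hvR : (y : ℝ) - n * x = g * v := by exact_mod_cast hv
    have hα1 : 0 ≤ α := by linarith
    set μ : ℝ := max |(x : ℝ)| |(y : ℝ)| with hμ
    set ν : ℝ := max |(u : ℝ)| |(v : ℝ)| with hν
    have hxμ : |(x : ℝ)| ≤ μ := le_max_left _ _
    have hyμ : |(y : ℝ)| ≤ μ := le_max_right _ _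
    have huν : |(u : ℝ)| ≤ ν := le_max_left _ _
    have hvν : |(v : ℝ)| ≤ ν := le_max_right _ _
    have hμ0 : 0 ≤ μ := (abs_nonneg _).trans hxμ
    have hν0 : 0 ≤ ν := (abs_nonneg _).trans huν
    have hY : |(y : ℝ) - n * x| ≤ (1 + η) * μ := by
      refine (abs_sub _ _).trans ?_
      rw [abs_mul]
      nlinarith [mul_le_mul_of_nonneg_left hxμ hη0]
    have h3a : |3 * (a : ℝ)| = α := by
      rw [abs_mul, hα]; norm_num
    refine ⟨huv, ?_, ?_, ?_, ?_, ?_⟩
    · intro h0
      rw [h0, mul_zero] at hval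
      exact (mul_ne_zero (mul_ne_zero (by norm_num) (pow_ne_zero 2 ha)) hFne) hval.symm
    · -- upper bound
      have hU : |(u : ℝ)| ≤ (1 + α) * (1 + β) * (1 + η) * μ := by
        have h1 : |(g : ℝ) * u| ≤ α * μ + β * ((1 + η) * μ) := by
          rw [← huR]
          refine (abs_add_le _ _).trans ?_
          rw [abs_mul, abs_mul (b : ℝ), h3a]
          exact add_le_add (mul_le_mul_of_nonneg_left hxμ (by linarith))
            (mul_le_mul_of_nonneg_left hY hβ0)
        have h2 : |(u : ℝ)| ≤ |(g : ℝ) * u| := by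
          rw [abs_mul, abs_of_pos (by linarith : (0 : ℝ) < g)]
          nlinarith [abs_nonneg (u : ℝ)]
        refine (h2.trans h1).trans ?_
        have h3 : α + β * (1 + η) ≤ (1 + α) * (1 + β) * (1 + η) := by
          have e : (1 + α) * (1 + β) * (1 + η) - (α + β * (1 + η)) =
            1 + η + α * β + α * η + α * β * η := by ring
          have e2 : 0 ≤ 1 + η + α * β + α * η + α * β * η := by positivity
          linarith
        calc α * μ + β * ((1 + η) * μ) = (α + β * (1 + η)) * μ := by ring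
          _ ≤ _ := mul_le_mul_of_nonneg_right h3 hμ0
      have hV : |(v : ℝ)| ≤ (1 + α) * (1 + β) * (1 + η) * μ := by
        have h1 : |(g : ℝ) * v| ≤ (1 + η) * μ := by
          rw [← hvR]; exact hY
        have h2 : |(v : ℝ)| ≤ |(g : ℝ) * v| := by
          rw [abs_mul, abs_of_pos (by linarith : (0 : ℝ) < g)]
          nlinarith [abs_nonneg (v : ℝ)]
        refine (h2.trans h1).trans ?_
        apply mul_le_mul_of_nonneg_right _ hμ0
        have e : (1 + α) * (1 + β) * (1 + η) - (1 + η) = (1 + η) * (α + β + α * β) := by ring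
        have e2 : 0 ≤ (1 + η) * (α + β + α * β) := by positivity
        linarith
      exact max_le hU hV
    · -- lower bound
      have hX1 : |3 * (a : ℝ) * x + b * (y - n * x)| ≤ α * ν := by
        rw [huR, abs_mul, abs_of_pos (by linarith : (0 : ℝ) < g)]
        exact mul_le_mul hgle huν (abs_nonneg _) (by linarith)
      have hY1 : |(y : ℝ) - n * x| ≤ α * ν := by
        rw [hvR, abs_mul, abs_of_pos (by linarith : (0 : ℝ) < g)]
        exact mul_le_mul hgle hvν (abs_nonneg _) (by linarith)
      have hx1 : |(x : ℝ)| ≤ α * (1 + β) * ν := by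
        have h1 : |3 * (a : ℝ) * x| ≤ α * ν + β * (α * ν) := by
          have e : 3 * (a : ℝ) * x = (3 * (a : ℝ) * x + b * (y - n * x)) - b * (y - n * x) := by
            ring
          rw [e]
          refine (abs_sub _ _).trans ?_
          rw [abs_mul (b : ℝ)]
          exact add_le_add hX1 (mul_le_mul_of_nonneg_left hY1 hβ0)
        have h2 : |(x : ℝ)| ≤ |3 * (a : ℝ) * x| := by
          rw [abs_mul, h3a]
          nlinarith [abs_nonneg (x : ℝ)]
        refine (h2.trans h1).trans (le_of_eq ?_)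
        ring
      have hy1 : |(y : ℝ)| ≤ α * ν + η * (α * (1 + β) * ν) := by
        have e : (y : ℝ) = (y - n * x) + n * x := by ring
        rw [e]
        refine (abs_add_le _ _).trans ?_
        rw [abs_mul]
        exact add_le_add hY1 (mul_le_mul_of_nonneg_left hx1 hη0)
      apply max_le
      · refine hx1.trans ?_
        have e : (1 + α) * (1 + β) * (1 + η) * ν - α * (1 + β) * ν =
          ν * (1 + β) * (1 + η + α * η) := by ring
        have e2 : 0 ≤ ν * (1 + β) * (1 + η + α * η) := by positivity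
        linarith
      · refine hy1.trans ?_
        have e : (1 + α) * (1 + β) * (1 + η) * ν - (α * ν + η * (α * (1 + β) * ν)) =
          ν * (α * β + (1 + β) * (1 + η)) := by ring
        have e2 : 0 ≤ ν * (α * β + (1 + β) * (1 + η)) := by positivity
        linarith
    · intro q hq hqM hqG
      have hq' : Prime (q : ℤ) := Nat.prime_iff_prime_int.1 hq
      have h1 : (q : ℤ) ∣ 27 * a ^ 2 * F3 a0 b0 c0 d x y := by
        rw [← hval]; exact hqG.mul_left _
      have hnot3 : ¬ (q : ℤ) ∣ 3 := by
        intro h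
        apply hqM
        have : q ∣ 3 := by exact_mod_cast h
        exact this.mul_right _
      have hnota : ¬ (q : ℤ) ∣ a := by
        intro h
        apply hqM
        exact (Int.natCast_dvd.1 h).mul_left _
      rcases hq'.dvd_or_dvd h1 with h2 | h2
      · exfalso
        rcases hq'.dvd_or_dvd h2 with h3 | h3
        · have e : (27 : ℤ) = 3 ^ 3 := by norm_num
          rw [e] at h3
          exact hnot3 (hq'.dvd_of_dvd_pow h3)
        · exact hnota (hq'.dvd_of_dvd_pow h3)
      · exact h2
    · rintro ⟨x', y'⟩ hcop' heq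
      simp only at hcop' heq
      left
      obtain ⟨g', u', v', hg', hg3', hu', hv', huv', eu', ev', eg'⟩ :=
        key_gcd (b := b) (n := n) ha hcop'
      have hphi' : phi a b n (x', y') = (u', v') := by
        unfold phi
        rw [eu', ev']
      rw [hphi'] at heq
      have e1 : u = u' := congrArg Prod.fst heq
      have e2 : v = v' := congrArg Prod.snd heq
      rw [← e1] at hu'
      rw [← e2] at hv'
      -- `g' (x, y) = g (x', y')`
      have k1 : g' * x = g * x' := by
        have h1 : 3 * a * (g' * x) = 3 * a * (g * x') := by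
          have q1 : 3 * a * x = g * u - b * (g * v) := by rw [← hu, ← hv]; ring
          have q2 : 3 * a * x' = g' * u - b * (g' * v) := by rw [← hu', ← hv']; ring
          linear_combination g' * q1 - g * q2
        exact mul_left_cancel₀ (mul_ne_zero (by norm_num) ha) h1
      have k2 : g' * y = g * y' := by
        have q1 : y = g * v + n * x := by linarith
        have q2 : y' = g' * v + n * x' := by linarith
        rw [q1, q2]
        linear_combination n * k1
      have k3 : g ∣ g' := by
        obtain ⟨s, t, hst⟩ := hcop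
        refine ⟨s * x' + t * y', ?_⟩
        linear_combination (-g') * hst + s * k1 + t * k2
      have k4 : g' ∣ g := by
        obtain ⟨s, t, hst⟩ := hcop'
        refine ⟨s * x + t * y, ?_⟩
        linear_combination (-g) * hst - s * k1 - t * k2
      have k5 : g = g' := Int.dvd_antisymm hg.le hg'.le k3 k4
      rw [k5] at k1 k2
      have k6 : x = x' := mul_left_cancel₀ hg'.ne' k1
      have k7 : y = y' := mul_left_cancel₀ hg'.ne' k2
      rw [k6, k7]

end Pool.Agent.W753.CD.RED
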